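import Pool.Agent.R191.Ext.Srb3

/-!
# A dissipative attractor with a non-dominated two-dimensional center-unstable bundle

This is a positive answer to Q2 of MP_40f8bf, on the three-torus.

The definitions are in `Pool/Agent/R191/Ext/Defs3.lean`: `T3` is the three-torus `ℝ³/ℤ³` and `R3` its
universal cover; `IsSmoothDiffeo3 f F G` says that `f` is a `C^∞` diffeomorphism of the three-torus with
lift `F`, and `G` is a lift of its inverse; `IsDissipative`, `IsAttracting`,
`HasStableCenterUnstable`, `HasDominatedSubsplitting`, `IsSRB` and `HasSaddleExponents` are the notions
of the problem. Domination, contraction and Lyapunov exponents are expressed through the derivatives of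
the iterates `F^[n]` of the lift.

The diffeomorphism is the product of the blown-up cat map `ff` of
`Pool/Agent/TH292/MR/Main.lean` and a diffeomorphism of the circle with a strongly attracting fixed point,
and `Λ` is the two-torus over this fixed point. The absence of a dominated subsplitting is proved
on an invariant circle of `ff` (the boundary of the blown-up disc): the Jacobian of `ff` is one along this
circle, and there is an orbit on the circle whose tangent vectors stay bounded for all positive and
negative times.
-/

set_option autoImplicit false

open Set Filter Topology MeasureTheory Function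

namespace Pool.Agent.Results.MP_40f8bf_an.DissipativeExample

open Pool.Agent.R191.Ext

/-- There are a dissipative `C^∞` diffeomorphism `f` of the three-torus, a compact invariant attracting
set `Λ` over which `f` has a stable bundle `Es` and a two-dimensional center-unstable bundle `Ecu`
without dominated subsplitting, and an SRB measure `μ` supported on `Λ` whose two Lyapunov exponents along
`Ecu` are one positive and one negative. -/
theorem result : ∃ (f : T3 ≃ₜ T3) (F G : R3 → R3) (Λ : Set T3) (Es Ecu : T3 → Submodule ℝ R3)
    (μ : Measure T3),
    IsSmoothDiffeo3 f F G ∧ IsDissipative f ∧ IsAttracting f Λ ∧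
    HasStableCenterUnstable f F Λ Es Ecu ∧ (∀ x ∈ Λ, Module.finrank ℝ (Ecu x) = 2) ∧
    ¬ HasDominatedSubsplitting f F Λ Ecu ∧
    IsSRB f F μ ∧ μ Λᶜ = 0 ∧ HasSaddleExponents F Ecu μ :=
  ⟨f3, F3, G3, La, Es, Ecu, mu3, smooth3, dissipative, attracting, scu3,
    fun x _ => finrank_Ecu x, no_subsplitting, srb3, mu3_La, saddle3⟩

end Pool.Agent.Results.MP_40f8bf_an.DissipativeExample
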